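import Mathlib
import Pool.Agent.Helper343_Dio.CorankComp

set_option autoImplicit false

open Pool.Agent.Helper343_Tau Pool.Agent.Helper343_Dio

namespace Pool.Agent.Results.MP_50148c_al.CorankTwo

/-- The conclusion of the tau-reduced Brauer-Thrall II' conjecture for algebras of any rank with a
tau-tilting infinite reduction of rank at most two: if `(V, P)` is a tau-rigid pair with at least
`n - 2` pairwise non-isomorphic indecomposable summands (`V = ⊕ V i`, `P = ⊕ P j`) such that
`(V ⊕ X, P)` is a tau-rigid pair for infinitely many indecomposable modules `X`, then some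
`Rep(A, d)` has a generically indecomposable, generically tau-reduced irreducible component `Z`
with `c_A(Z) ≥ 1`. For `n ≤ 2` and `V = P = 0` the hypothesis says that `A` is tau-tilting
infinite. -/
theorem result (K : Type) [Field K] [IsAlgClosed K] (A : Type) [Ring A] [Algebra K A]
    [FiniteDimensional K A] (n : ℕ) (e : Fin n → A) (he : IsBasic K A e)
    (a b : ℕ) (hn : n ≤ a + b + 2) (V : Fin a → ModuleCat.{0} A) (P : Fin b → ModuleCat.{0} A)
    (X : ℕ → ModuleCat.{0} A) (hV : Family A V) (hP : Family A P) (hX : Family A X)
    (hproj : ∀ j, Module.Projective A (P j))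
    (hrig : ∀ m, TauRigid K A ((∀ i, V i) × X m))
    (hzero : ∀ m j (f : P j →ₗ[A] (∀ i, V i) × X m), f = 0) :
    ∃ (d : Fin n → ℕ) (Z : Set (Rep K A e d)), Z ∈ irreducibleComponents (Rep K A e d) ∧
      GenIndec Z ∧ cA Z = homTau Z ∧ 1 ≤ cA Z := by
  have : Infinite K := IsAlgClosed.instInfinite
  exact component_of_corank_two he hn V P X hV hP hX hproj hrig hzero

end Pool.Agent.Results.MP_50148c_al.CorankTwo
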