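import Mathlib
import Pool.Agent.Helper343_Dio.DioComp

set_option autoImplicit false

open Pool.Agent.Helper343_Tau Pool.Agent.Helper343_Dio

namespace Pool.Agent.Results.MP_50148c_al.Diophantine

/-- The conclusion of the tau-reduced Brauer-Thrall II' conjecture, in any rank, for algebras with
a well approximable vector outside the `g`-vector fan: let `θ` be a real vector which does not lie
in the `g`-vector fan, such that for some constant `C` and arbitrarily large real numbers `t` there
are integral vectors `p` with `|t * θ i - p i| ≤ C / t` for all `i`. Then some `Rep(A, d)` has a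
generically indecomposable, generically tau-reduced irreducible component `Z` with `c_A(Z) ≥ 1`. -/
theorem result (K : Type) [Field K] [IsAlgClosed K] (A : Type) [Ring A] [Algebra K A]
    [FiniteDimensional K A] (n : ℕ) (e : Fin n → A) (he : IsBasic K A e)
    (θ : Fin n → ℝ) (hθ : ¬ InFan K A e θ) (C : ℝ)
    (h : ∀ T : ℝ, ∃ t : ℝ, T < t ∧ ∃ p : Fin n → ℤ, ∀ i, |t * θ i - p i| ≤ C / t) :
    ∃ (d : Fin n → ℕ) (Z : Set (Rep K A e d)), Z ∈ irreducibleComponents (Rep K A e d) ∧
      GenIndec Z ∧ cA Z = homTau Z ∧ 1 ≤ cA Z := by
  have : Infinite K := IsAlgClosed.instInfinite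
  exact component_of_approx he θ hθ C h

end Pool.Agent.Results.MP_50148c_al.Diophantine
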