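import Mathlib
import Pool.Agent.Helper343_Dio.Growth

set_option autoImplicit false

open Pool.Agent.Helper343_Tau Pool.Agent.Helper343_Dio

namespace Pool.Agent.Results.MP_50148c_al.SlowGrowth

/-- The conclusion of the tau-reduced Brauer-Thrall II' conjecture, in any rank, from slowly
growing `Hom`-spaces: if for all `m` and `c > 0` there are nonzero tau-rigid modules
`V 1, ..., V m` with
`dim Hom(V i, V j) < dim Hom(V j, tau (V i)) + c * dim (V i) * dim (V j)` for all `i < j`,
then some `Rep(A, d)` has a generically indecomposable, generically tau-reduced irreducible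
component `Z` with `c_A(Z) ≥ 1`. (With all `V i` equal to `V` the inequality says that
`dim End(V) < c * (dim V) ^ 2`.) -/
theorem result (K : Type) [Field K] [IsAlgClosed K] (A : Type) [Ring A] [Algebra K A]
    [FiniteDimensional K A] (n : ℕ) (e : Fin n → A) (he : IsBasic K A e)
    (h : ∀ (m : ℕ) (c : ℝ), 0 < c → ∃ V : Fin m → ModuleCat.{0} A,
      (∀ i, Module.Finite A (V i) ∧ Nontrivial (V i) ∧ TauRigid K A (V i)) ∧
      ∀ i j, i < j → ∃ t, HomTauEq K A (V j) (V i) t ∧
        (homDim K A (V i) (V j) : ℝ) < t + c * kDim K A (V i) * kDim K A (V j)) :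
    ∃ (d : Fin n → ℕ) (Z : Set (Rep K A e d)), Z ∈ irreducibleComponents (Rep K A e d) ∧
      GenIndec Z ∧ cA Z = homTau Z ∧ 1 ≤ cA Z := by
  have : Infinite K := IsAlgClosed.instInfinite
  exact component_of_growth he h

end Pool.Agent.Results.MP_50148c_al.SlowGrowth
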